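import Pool.Agent.Y360.CHGParams

set_option autoImplicit false

namespace Pool.Agent.Y360.CHG

open Finset Filter

/-- the limit of the stages -/
theorem limit (h g : ℕ) (hh : 0 < h) (hg : 0 < g) :
    ∃ A : Set ℤ, A ⊆ {n : ℤ | 1 ≤ n} ∧
      (∀ X : Finset ℤ, X.card = h + 1 → ∀ k : Fin (g + 1) → ℤ, Function.Injective k →
        ¬ ∀ i, ∀ x ∈ X, x + k i ∈ A) ∧
      ∀ J : ℕ, (muf h g J) ≤ 2 * (A ∩ Set.Ico ((4 : ℤ) ^ J) (2 * 4 ^ J)).ncard := by
  classical
  obtain ⟨e, he1, he2, he3, he4⟩ := exists_e h g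
  have hst := stage e he1 he2 he3 he4 (Mf_pos h g) (Mf_mono hh) (muf_mono h g) h g hh hg
    (Mf_L hh) (muf_sz h g)
  choose As h1 h2 h3 using hst
  set U : Ultrafilter ℕ := hyperfilter ℕ with hU
  refine ⟨{v | ∀ᶠ n in (U : Filter ℕ), v ∈ As n}, ?_, ?_, ?_⟩
  · intro v hv
    obtain ⟨n, hn⟩ := hv.exists
    exact h1 n v hn
  · intro X hX k hk hall
    have h4 : ∀ᶠ n in (U : Filter ℕ), ∀ i : Fin (g + 1), ∀ x ∈ X, x + k i ∈ As n := by
      rw [eventually_all]
      intro i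
      rw [eventually_all_finset]
      exact fun x hx => hall i x hx
    obtain ⟨n, hn⟩ := h4.exists
    exact h2 n X hX k hk hn
  · intro J
    have h4 : ∀ᶠ n in (U : Filter ℕ), ∀ v ∈ Finset.Ico ((4 : ℤ) ^ J) (2 * 4 ^ J),
        (v ∈ As n → ∀ᶠ m in (U : Filter ℕ), v ∈ As m) := by
      rw [eventually_all_finset]
      intro v _
      by_cases hv : ∀ᶠ m in (U : Filter ℕ), v ∈ As m
      · exact Eventually.of_forall fun n _ => hv
      · have h5 := Ultrafilter.eventually_not.2 hv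
        exact h5.mono fun n hn hn2 => absurd hn2 hn
    have h5 : ∀ᶠ n in (U : Filter ℕ), J ≤ n := by
      have : (U : Filter ℕ) ≤ atTop := by
        rw [hU]
        exact Nat.hyperfilter_le_atTop
      exact this (eventually_ge_atTop J)
    obtain ⟨n, hn1, hn2⟩ := (h4.and h5).exists
    refine (h3 n J hn2).trans ?_
    apply Nat.mul_le_mul_left
    rw [← Set.ncard_coe_finset]
    apply Set.ncard_le_ncard
    · intro v hv
      rw [Finset.mem_coe, Finset.mem_filter] at hv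
      refine ⟨hn1 v (Finset.mem_Ico.2 hv.2) hv.1, Set.mem_Ico.2 hv.2⟩
    · exact (Set.finite_Ico _ _).subset Set.inter_subset_right

theorem main (h g : ℕ) (hh : 0 < h) (hg : 0 < g) :
    ∃ A : Set ℤ,
      A ⊆ {n : ℤ | 1 ≤ n} ∧ A.Infinite ∧
      (∀ X : Finset ℤ, X.card = h + 1 → ∀ k : Fin (g + 1) → ℤ, Function.Injective k →
        ¬ (∀ i : Fin (g + 1), ∀ x ∈ X, x + k i ∈ A)) ∧
      ∀ ε : ℝ, 0 < ε →
        ∀ᶠ n : ℕ in atTop,
          (n : ℝ) ^ (1 - bet h g - ε) ≤ ((A ∩ Set.Icc (1 : ℤ) (n : ℤ)).ncard : ℝ) := by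
  obtain ⟨A, hA1, hA2, hA3⟩ := limit h g hh hg
  have hα : 0 < 1 - bet h g := by
    unfold bet
    have h1 : (0 : ℝ) < h := by exact_mod_cast hh
    have h2 : (0 : ℝ) < g := by exact_mod_cast hg
    have h3 : 0 < (h : ℝ) * g := by positivity
    rw [sub_pos, div_lt_one (by positivity)]
    linarith
  have hα1 : 1 - bet h g ≤ 1 := by
    have := bet_pos (g := g) hh
    linarith
  -- the counting function
  have hcount : ∀ ε : ℝ, 0 < ε → ε ≤ 1 - bet h g → ∃ n0 : ℕ, ∀ n : ℕ, n0 ≤ n →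
      (n : ℝ) ^ (1 - bet h g - ε) ≤ ((A ∩ Set.Icc (1 : ℤ) (n : ℤ)).ncard : ℝ) := by
    intro ε hε hεα
    obtain ⟨b0, hb0⟩ := muf_lower (g := g) hh (ε / 2) (by linarith) (by linarith)
    obtain ⟨b1, hb1⟩ := exists_nat_ge (4 / ε)
    set B := max b0 b1 with hB
    refine ⟨2 * 4 ^ B, fun n hn => ?_⟩
    -- choose J
    have hn1 : n ≠ 0 := by
      have : 0 < 2 * 4 ^ B := by positivity
      omega
    set J := Nat.log 4 (n / 2) with hJ
    have hn2 : n / 2 ≠ 0 := by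
      have : 0 < 4 ^ B := by positivity
      omega
    have hJ1 : 4 ^ J ≤ n / 2 := Nat.pow_log_le_self 4 hn2
    have hJ2 : n / 2 < 4 ^ (J + 1) := Nat.lt_pow_succ_log_self (by norm_num) _
    have hJB : B ≤ J := by
      rw [hJ]
      apply Nat.le_log_of_pow_le (by norm_num)
      omega
    have hJn : 2 * 4 ^ J ≤ n := by omega
    have hnJ : n ≤ 8 * 4 ^ J := by
      rw [pow_succ] at hJ2
      omega
    have hlow := hb0 J ((le_max_left _ _).trans hJB)
    have hJε : 4 ≤ ε * J := by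
      have h1 : (b1 : ℝ) ≤ J := by exact_mod_cast (le_max_right b0 b1).trans hJB
      have h2 : 4 / ε ≤ (J : ℝ) := hb1.trans h1
      rw [div_le_iff₀ hε] at h2
      linarith
    have h1 := hA3 J
    have h2 : (A ∩ Set.Ico ((4 : ℤ) ^ J) (2 * 4 ^ J)).ncard ≤ (A ∩ Set.Icc (1 : ℤ) (n : ℤ)).ncard := by
      apply Set.ncard_le_ncard
      · rintro v ⟨hv, hv1, hv2⟩
        refine ⟨hv, hA1 hv, ?_⟩
        have : ((2 * 4 ^ J : ℕ) : ℤ) ≤ n := by exact_mod_cast hJn
        push_cast at this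
        exact (hv2.le).trans this
      · exact (Set.finite_Icc _ _).subset Set.inter_subset_right
    have h3 : (muf h g J : ℝ) ≤ 2 * ((A ∩ Set.Icc (1 : ℤ) (n : ℤ)).ncard : ℝ) := by
      have : muf h g J ≤ 2 * (A ∩ Set.Icc (1 : ℤ) (n : ℤ)).ncard := by omega
      exact_mod_cast this
    have h4 : (n : ℝ) ^ (1 - bet h g - ε) ≤ 8 * (4 : ℝ) ^ ((1 - bet h g - ε) * J) := by
      have h5 : (n : ℝ) ≤ 8 * 4 ^ J := by exact_mod_cast hnJ
      calc (n : ℝ) ^ (1 - bet h g - ε) ≤ (8 * (4 : ℝ) ^ J) ^ (1 - bet h g - ε) :=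
            Real.rpow_le_rpow (by positivity) h5 (by linarith)
        _ = (8 : ℝ) ^ (1 - bet h g - ε) * (4 : ℝ) ^ ((1 - bet h g - ε) * J) := by
            rw [Real.mul_rpow (by norm_num) (by positivity), ← Real.rpow_natCast 4 J,
              ← Real.rpow_mul (by norm_num), mul_comm (J : ℝ)]
        _ ≤ 8 * (4 : ℝ) ^ ((1 - bet h g - ε) * J) := by
            have h6 : (8 : ℝ) ^ (1 - bet h g - ε) ≤ 8 := by
              calc (8 : ℝ) ^ (1 - bet h g - ε) ≤ (8 : ℝ) ^ (1 : ℝ) :=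
                    Real.rpow_le_rpow_of_exponent_le (by norm_num) (by linarith)
                _ = 8 := Real.rpow_one _
            gcongr
    have h7 : 16 * (4 : ℝ) ^ ((1 - bet h g - ε) * J) ≤ (4 : ℝ) ^ ((1 - bet h g - ε / 2) * J) := by
      have h8 : (4 : ℝ) ^ ((1 - bet h g - ε / 2) * J)
          = (4 : ℝ) ^ (ε * J / 2) * (4 : ℝ) ^ ((1 - bet h g - ε) * J) := by
        rw [← Real.rpow_add (by norm_num)]
        congr 1
        ring
      rw [h8]
      have h9 : (16 : ℝ) ≤ (4 : ℝ) ^ (ε * J / 2) := by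
        calc (16 : ℝ) = (4 : ℝ) ^ (2 : ℝ) := by norm_num
          _ ≤ (4 : ℝ) ^ (ε * J / 2) :=
            Real.rpow_le_rpow_of_exponent_le (by norm_num) (by linarith)
      gcongr
    linarith
  refine ⟨A, hA1, ?_, hA2, ?_⟩
  · -- infinite
    intro hfin
    obtain ⟨n0, hn0⟩ := hcount ((1 - bet h g) / 2) (by linarith) (by linarith)
    have hpos : 0 < 1 - bet h g - (1 - bet h g) / 2 := by linarith
    have ht : Tendsto (fun n : ℕ => (n : ℝ) ^ (1 - bet h g - (1 - bet h g) / 2)) atTop atTop :=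
      (tendsto_rpow_atTop hpos).comp tendsto_natCast_atTop_atTop
    obtain ⟨n, hn1, hn2⟩ := ((ht.eventually_gt_atTop (A.ncard : ℝ)).and
      (eventually_ge_atTop n0)).exists
    have h1 := hn0 n hn2
    have h2 : (A ∩ Set.Icc (1 : ℤ) (n : ℤ)).ncard ≤ A.ncard :=
      Set.ncard_le_ncard Set.inter_subset_left hfin
    have h3 : ((A ∩ Set.Icc (1 : ℤ) (n : ℤ)).ncard : ℝ) ≤ A.ncard := by exact_mod_cast h2
    linarith
  · intro ε hε
    obtain ⟨n0, hn0⟩ := hcount (min ε (1 - bet h g)) (lt_min hε hα) (min_le_right _ _)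
    filter_upwards [eventually_ge_atTop n0, eventually_ge_atTop 1] with n hn hn1
    refine le_trans ?_ (hn0 n hn)
    apply Real.rpow_le_rpow_of_exponent_le
    · exact_mod_cast hn1
    · have := min_le_left ε (1 - bet h g)
      linarith

end Pool.Agent.Y360.CHG
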