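import Mathlib

set_option autoImplicit false

namespace Pool.Agent.Y360.CHG

open Finset

/-- the number of choice functions through a given set of points -/
lemma count_choice {C : Type} [Fintype C] [DecidableEq C] (κ : C → ℕ)
    (S : Finset (Σ c, Fin (κ c))) :
    ((univ.filter fun f : (∀ c, Fin (κ c)) => ∀ p ∈ S, f p.1 = p.2).card) * ∏ p ∈ S, κ p.1
      ≤ Fintype.card (∀ c, Fin (κ c)) := by
  classical
  rcases (univ.filter fun f : (∀ c, Fin (κ c)) => ∀ p ∈ S, f p.1 = p.2).eq_empty_or_nonempty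
    with h | ⟨f0, hf0⟩
  · rw [h]; simp
  rw [mem_filter] at hf0
  have hf0 := hf0.2
  have hinj : Set.InjOn (fun p : (Σ c, Fin (κ c)) => p.1) (S : Set (Σ c, Fin (κ c))) := by
    intro p hp q hq hpq
    rcases p with ⟨c, x⟩
    rcases q with ⟨d, y⟩
    have hcd : c = d := hpq
    subst hcd
    have h1 := hf0 _ hp
    have h2 := hf0 _ hq
    simp only at h1 h2
    rw [← h1, ← h2]
  set T : Finset C := S.image (fun p => p.1) with hT
  have hprod : ∏ p ∈ S, κ p.1 = ∏ c ∈ T, κ c := by
    rw [hT, prod_image hinj]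
  have hsub : (univ.filter fun f : (∀ c, Fin (κ c)) => ∀ p ∈ S, f p.1 = p.2)
      ⊆ Fintype.piFinset (fun c => if c ∈ T then {f0 c} else univ) := by
    intro f hf
    rw [mem_filter] at hf
    rw [Fintype.mem_piFinset]
    intro c
    split_ifs with hc
    · rw [hT, mem_image] at hc
      obtain ⟨p, hp, rfl⟩ := hc
      rw [mem_singleton, hf.2 p hp, hf0 p hp]
    · exact mem_univ _
  have hcard : (Fintype.piFinset (fun c => if c ∈ T then {f0 c} else (univ : Finset (Fin (κ c))))).card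
      = ∏ c ∈ Tᶜ, κ c := by
    rw [Fintype.card_piFinset, ← prod_mul_prod_compl T]
    have h1 : ∏ c ∈ T, (if c ∈ T then {f0 c} else (univ : Finset (Fin (κ c)))).card = 1 := by
      apply prod_eq_one
      intro c hc
      rw [if_pos hc, card_singleton]
    rw [h1, one_mul]
    apply prod_congr rfl
    intro c hc
    rw [mem_compl] at hc
    rw [if_neg hc, card_univ, Fintype.card_fin]
  calc _ ≤ (∏ c ∈ Tᶜ, κ c) * ∏ c ∈ T, κ c := by
        rw [hprod]
        exact Nat.mul_le_mul_right _ (hcard ▸ card_le_card hsub)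
    _ = ∏ c, κ c := by rw [mul_comm, prod_mul_prod_compl]
    _ = _ := by rw [Fintype.card_pi]; simp

section main

variable {C : Type} [Fintype C] [DecidableEq C] (b : C → ℕ) (M : ℕ → ℕ)

/-- the points -/
abbrev Pt : Type := Σ c, Fin (M (b c))

variable {b M}

/-- a normalised grid inside the chosen set -/
def Grid (val : Pt b M → ℤ) (h g : ℕ) (f : ∀ c, Fin (M (b c))) (a : Pt b M)
    (k : Fin h ⊕ Fin g → Pt b M) : Prop :=
  f a.1 = a.2 ∧ (∀ x, f (k x).1 = (k x).2) ∧ (∀ x, val a < val (k x)) ∧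
    Function.Injective (fun i => k (Sum.inl i)) ∧ Function.Injective (fun j => k (Sum.inr j)) ∧
    ∀ i j, ∃ p : Pt b M, f p.1 = p.2 ∧ val p = val (k (Sum.inl i)) + val (k (Sum.inr j)) - val a

/-- the largest block index of the coordinates -/
def top {h g : ℕ} (k : Fin h ⊕ Fin g → Pt b M) : ℕ := univ.sup fun x => b (k x).1

/-- the number of choice functions for which `(a, k)` is a grid -/
lemma count_grid (hM : ∀ n, 0 < M n) (hMm : Monotone M) (L : ℕ → ℝ) (hL : ∀ n, 0 < L n)
    (h g : ℕ) (hh : 0 < h) 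
    (hML : ∀ n, L n ^ (h + g) ≤ (M n : ℝ) ^ (h * g + (h + g)))
    (val : Pt b M → ℤ) (hval : Function.Injective val)
    (hmono : ∀ p q, val p ≤ val q → b p.1 ≤ b q.1)
    (hAP : ∀ p q s, val p + val q = 2 * val s → p = q)
    (a : Pt b M) (k : Fin h ⊕ Fin g → Pt b M) [DecidablePred fun f => Grid val h g f a k] :
    ((univ.filter fun f : (∀ c, Fin (M (b c))) => Grid val h g f a k).card : ℝ)
      ≤ (Fintype.card (∀ c, Fin (M (b c))) : ℝ) * ((M (b a.1) : ℝ)⁻¹ * ∏ x, (L (b (k x).1))⁻¹) := by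
  classical
  rcases (univ.filter fun f : (∀ c, Fin (M (b c))) => Grid val h g f a k).eq_empty_or_nonempty
    with he | ⟨f0, hf0⟩
  · rw [he]
    simp only [card_empty, Nat.cast_zero]
    have : ∀ x, 0 < (L (b (k x).1))⁻¹ := fun x => inv_pos.2 (hL _)
    have h2 : 0 < ∏ x, (L (b (k x).1))⁻¹ := prod_pos fun x _ => this x
    positivity
  rw [mem_filter] at hf0
  obtain ⟨-, h1, h2, h3, h4, h5, h6⟩ := hf0
  choose E hE1 hE2 using h6
  -- the family of all the points
  let e : Option (Fin h) × Option (Fin g) → Pt b M := fun ij =>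
    match ij with
    | (none, none) => a
    | (some i, none) => k (Sum.inl i)
    | (none, some j) => k (Sum.inr j)
    | (some i, some j) => E i j
  let X : Option (Fin h) → ℤ := fun i => match i with
    | none => val a
    | some i => val (k (Sum.inl i))
  let Y : Option (Fin g) → ℤ := fun j => match j with
    | none => 0
    | some j => val (k (Sum.inr j)) - val a
  have hXY : ∀ i j, val (e (i, j)) = X i + Y j := by
    intro i j
    rcases i with _ | i <;> rcases j with _ | j
    · simp [e, X, Y]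
    · simp [e, X, Y]
    · simp [e, X, Y]
    · simp only [e, X, Y, hE2]; ring
  have hX : Function.Injective X := by
    intro i i' hii
    rcases i with _ | i <;> rcases i' with _ | i'
    · rfl
    · exact absurd hii (ne_of_lt (h3 _))
    · exact absurd hii.symm (ne_of_lt (h3 _))
    · exact congrArg some (h4 (hval hii))
  have hY : Function.Injective Y := by
    intro i i' hii
    rcases i with _ | i <;> rcases i' with _ | i'
    · rfl
    · have := h3 (Sum.inr i')
      simp only [Y] at hii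
      omega
    · have := h3 (Sum.inr i)
      simp only [Y] at hii
      omega
    · simp only [Y] at hii
      exact congrArg some (h5 (hval (by linarith)))
  have he : Function.Injective e := by
    rintro ⟨i, j⟩ ⟨i', j'⟩ hee
    have q1 : X i + Y j = X i' + Y j' := by rw [← hXY, ← hXY, hee]
    have q2 : e (i, j') = e (i', j) := by
      apply hAP _ _ (e (i, j))
      rw [hXY, hXY, hXY]
      linarith
    have q3 : X i + Y j' = X i' + Y j := by rw [← hXY, ← hXY, q2]
    have q4 : Y j = Y j' := by linarith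
    have q5 : X i = X i' := by linarith
    rw [hX q5, hY q4]
  -- counting
  have hcount := count_choice (fun c => M (b c)) (univ.image e)
  have hsub : (univ.filter fun f : (∀ c, Fin (M (b c))) => Grid val h g f a k) ⊆
      (univ.filter fun f : (∀ c, Fin (M (b c))) => ∀ p ∈ univ.image e, f p.1 = p.2) := by
    intro f hf
    rw [mem_filter] at hf ⊢
    refine ⟨mem_univ _, ?_⟩
    obtain ⟨-, f1, f2, f3, f4, f5, f6⟩ := hf
    intro p hp
    rw [mem_image] at hp
    obtain ⟨⟨i, j⟩, -, rfl⟩ := hp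
    rcases i with _ | i <;> rcases j with _ | j
    · exact f1
    · exact f2 _
    · exact f2 _
    · obtain ⟨p, hp1, hp2⟩ := f6 i j
      have : p = E i j := hval (by rw [hp2, hE2])
      show f (E i j).1 = (E i j).2
      rw [← this]; exact hp1
  have hprod : ∏ p ∈ univ.image e, M (b p.1)
      = M (b a.1) * ((∏ x, M (b (k x).1)) * ∏ i, ∏ j, M (b (E i j).1)) := by
    rw [prod_image (fun x _ y _ hxy => he hxy)]
    rw [Fintype.prod_prod_type]
    simp only [Fintype.prod_option, Fintype.prod_sum_type]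
    simp only [e]
    rw [prod_mul_distrib]
    ring
  rw [hprod] at hcount
  -- the inequality for the sizes
  have hEM1 : ∀ i j, (M (b (k (Sum.inl i)).1) : ℝ) ≤ M (b (E i j).1) := by
    intro i j
    have := h3 (Sum.inr j)
    exact_mod_cast hMm (hmono _ _ (by rw [hE2]; linarith))
  have hEM2 : ∀ i j, (M (b (k (Sum.inr j)).1) : ℝ) ≤ M (b (E i j).1) := by
    intro i j
    have := h3 (Sum.inl i)
    exact_mod_cast hMm (hmono _ _ (by rw [hE2]; linarith))
  have hMpos : ∀ n, (0 : ℝ) < M n := fun n => by exact_mod_cast hM n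
  have hq : h + g ≠ 0 := by omega
  have hkey : ∏ x, L (b (k x).1) ≤ (∏ x, (M (b (k x).1) : ℝ)) * ∏ i, ∏ j, (M (b (E i j).1) : ℝ) := by
    have hP1 : (0 : ℝ) ≤ (∏ x, (M (b (k x).1) : ℝ)) * ∏ i, ∏ j, (M (b (E i j).1) : ℝ) := by
      positivity
    rw [← pow_le_pow_iff_left₀ (prod_nonneg fun x _ => (hL _).le) hP1 hq]
    have e1 : (∏ x, L (b (k x).1)) ^ (h + g) ≤ ∏ x, (M (b (k x).1) : ℝ) ^ (h * g + (h + g)) := by
      rw [← prod_pow]
      exact prod_le_prod (fun x _ => pow_nonneg (hL _).le _) (fun x _ => hML _)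
    have e2 : ∏ i, ∏ j, ((M (b (k (Sum.inl i)).1) : ℝ) ^ h * (M (b (k (Sum.inr j)).1) : ℝ) ^ g)
        ≤ (∏ i, ∏ j, (M (b (E i j).1) : ℝ)) ^ (h + g) := by
      rw [← prod_pow]
      refine prod_le_prod (fun i _ => prod_nonneg fun j _ => by positivity) (fun i _ => ?_)
      rw [← prod_pow]
      refine prod_le_prod (fun j _ => by positivity) (fun j _ => ?_)
      rw [pow_add]
      exact mul_le_mul (pow_le_pow_left₀ (hMpos _).le (hEM1 i j) _)
        (pow_le_pow_left₀ (hMpos _).le (hEM2 i j) _) (by positivity) (by positivity)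
    have e3 : ∏ i : Fin h, ∏ j : Fin g,
        ((M (b (k (Sum.inl i)).1) : ℝ) ^ h * (M (b (k (Sum.inr j)).1) : ℝ) ^ g)
        = ∏ x, (M (b (k x).1) : ℝ) ^ (h * g) := by
      rw [Fintype.prod_sum_type]
      simp only [prod_mul_distrib, prod_const, card_univ, Fintype.card_fin]
      congr 1
      · apply prod_congr rfl
        intro i _
        rw [← pow_mul]
      · rw [← prod_pow]
        apply prod_congr rfl
        intro j _
        rw [← pow_mul, mul_comm g h]
    calc (∏ x, L (b (k x).1)) ^ (h + g) ≤ ∏ x, (M (b (k x).1) : ℝ) ^ (h * g + (h + g)) := e1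
      _ = (∏ x, (M (b (k x).1) : ℝ)) ^ (h + g) * ∏ x, (M (b (k x).1) : ℝ) ^ (h * g) := by
          rw [← prod_pow, ← prod_mul_distrib]
          apply prod_congr rfl
          intro x _
          rw [← pow_add, add_comm]
      _ ≤ (∏ x, (M (b (k x).1) : ℝ)) ^ (h + g) * (∏ i, ∏ j, (M (b (E i j).1) : ℝ)) ^ (h + g) := by
          rw [← e3]
          exact mul_le_mul_of_nonneg_left e2 (by positivity)
      _ = _ := by rw [mul_pow]
  have hL' : 0 < ∏ x, L (b (k x).1) := prod_pos fun x _ => hL _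
  have hc1 : ((univ.filter fun f : (∀ c, Fin (M (b c))) => Grid val h g f a k).card : ℝ) *
      ((M (b a.1) : ℝ) * ((∏ x, (M (b (k x).1) : ℝ)) * ∏ i, ∏ j, (M (b (E i j).1) : ℝ)))
      ≤ (Fintype.card (∀ c, Fin (M (b c))) : ℝ) := by
    refine le_trans ?_ (Nat.cast_le.2 hcount)
    push_cast
    gcongr
  have hc2 : ((univ.filter fun f : (∀ c, Fin (M (b c))) => Grid val h g f a k).card : ℝ) *
      ((M (b a.1) : ℝ) * ∏ x, L (b (k x).1)) ≤ (Fintype.card (∀ c, Fin (M (b c))) : ℝ) := by
    refine le_trans ?_ hc1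
    gcongr
  have hfin : (M (b a.1) : ℝ)⁻¹ * ∏ x, (L (b (k x).1))⁻¹ = ((M (b a.1) : ℝ) * ∏ x, L (b (k x).1))⁻¹ := by
    rw [mul_inv, prod_inv_distrib]
  rw [hfin, ← div_eq_mul_inv, le_div_iff₀ (mul_pos (hMpos _) hL')]
  exact hc2

/-- a choice function with few grids for every value of the top block -/
theorem exists_choice (hM : ∀ n, 0 < M n) (hMm : Monotone M) (L : ℕ → ℝ) (hL : ∀ n, 0 < L n)
    (μ : ℕ → ℕ) (h g : ℕ) (hh : 0 < h) (hg : 0 < g)
    (hML : ∀ n, L n ^ (h + g) ≤ (M n : ℝ) ^ (h * g + (h + g)))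
    (val : Pt b M → ℤ) (hval : Function.Injective val)
    (hmono : ∀ p q, val p ≤ val q → b p.1 ≤ b q.1)
    (hAP : ∀ p q s, val p + val q = 2 * val s → p = q)
    (hcell : ∀ T, ((univ.filter fun c => b c ≤ T).card) ≤ (T + 1) * μ T)
    (hsum : ∑ p : Pt b M, ((b p.1 : ℝ) + 1) * (L (b p.1))⁻¹ ≤ 1 / 2) :
    ∃ f : ∀ c, Fin (M (b c)), ∀ J, 0 < μ J → ∀ 𝒢 : Finset (Pt b M × (Fin h ⊕ Fin g → Pt b M)),
      (∀ ak ∈ 𝒢, Grid val h g f ak.1 ak.2 ∧ top ak.2 = J) → 2 * 𝒢.card ≤ μ J := by
  classical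
  have hMpos : ∀ n, (0 : ℝ) < M n := fun n => by exact_mod_cast hM n
  set Ω := ∀ c, Fin (M (b c)) with hΩ
  set N : ℝ := (Fintype.card Ω : ℝ) with hN
  have hne : Nonempty Ω := ⟨fun c => ⟨0, hM _⟩⟩
  have hNpos : 0 < N := by
    rw [hN]; exact_mod_cast Fintype.card_pos
  -- the weighted number of grids
  let w : (Fin h ⊕ Fin g → Pt b M) → ℝ := fun k => 2 / (μ (top k) : ℝ)
  have hw : ∀ k, 0 ≤ w k := fun k => by positivity
  let Φ : Ω → ℝ := fun f => ∑ ak : Pt b M × (Fin h ⊕ Fin g → Pt b M),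
    if Grid val h g f ak.1 ak.2 then w ak.2 else 0
  -- cells below the top
  have htop : ∀ T : ℕ, ∑ a : Pt b M, (if b a.1 ≤ T then (M (b a.1) : ℝ)⁻¹ else 0)
      ≤ ((T : ℝ) + 1) * μ T := by
    intro T
    rw [Fintype.sum_sigma]
    have e1 : ∀ c : C, ∑ y : Fin (M (b c)), (if b c ≤ T then (M (b c) : ℝ)⁻¹ else 0)
        = if b c ≤ T then 1 else 0 := by
      intro c
      rw [sum_const, card_univ, Fintype.card_fin, nsmul_eq_mul]
      split_ifs
      · exact mul_inv_cancel₀ (hMpos _).ne'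
      · simp
    have e2 : ∑ c : C, ∑ y : Fin (M (b c)), (if b (⟨c, y⟩ : Pt b M).1 ≤ T
        then (M (b (⟨c, y⟩ : Pt b M).1) : ℝ)⁻¹ else 0)
        = ∑ c : C, if b c ≤ T then (1 : ℝ) else 0 := sum_congr rfl fun c _ => e1 c
    rw [e2, ← sum_filter, sum_const, nsmul_eq_mul, mul_one]
    exact_mod_cast hcell T
  have hble : ∀ (k : Fin h ⊕ Fin g → Pt b M) x, b (k x).1 ≤ top k := fun k x =>
    le_sup (f := fun x => b (k x).1) (mem_univ x)
  have hbtop : ∀ (k : Fin h ⊕ Fin g → Pt b M), ((top k : ℝ) + 1) ≤ ∏ x, ((b (k x).1 : ℝ) + 1) := by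
    intro k
    obtain ⟨x, -, hx⟩ := exists_mem_eq_sup (univ : Finset (Fin h ⊕ Fin g))
      ⟨Sum.inl ⟨0, hh⟩, mem_univ _⟩ (fun x => b (k x).1)
    have : top k = b (k x).1 := hx
    rw [this]
    calc ((b (k x).1 : ℝ) + 1) = ∏ y ∈ ({x} : Finset (Fin h ⊕ Fin g)), ((b (k y).1 : ℝ) + 1) := by
          rw [prod_singleton]
      _ ≤ _ := prod_le_prod_of_subset_of_one_le (subset_univ _) (fun y _ => by positivity)
          (fun y _ _ => by
            have : (0 : ℝ) ≤ b (k y).1 := by positivity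
            linarith)
  have hsumΦ : ∑ f, Φ f ≤ N * (1 / 2) := by
    calc ∑ f, Φ f = ∑ ak : Pt b M × (Fin h ⊕ Fin g → Pt b M), ∑ f : Ω,
          if Grid val h g f ak.1 ak.2 then w ak.2 else 0 := sum_comm
      _ = ∑ ak : Pt b M × (Fin h ⊕ Fin g → Pt b M),
          ((univ.filter fun f : Ω => Grid val h g f ak.1 ak.2).card : ℝ) * w ak.2 := by
          apply sum_congr rfl
          intro ak _
          rw [← sum_filter, sum_const, nsmul_eq_mul]
      _ ≤ ∑ ak : Pt b M × (Fin h ⊕ Fin g → Pt b M),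
          (if b ak.1.1 ≤ top ak.2 then (M (b ak.1.1) : ℝ)⁻¹ else 0) *
            (N * ((∏ x, (L (b (ak.2 x).1))⁻¹) * w ak.2)) := by
          apply sum_le_sum
          rintro ⟨a, k⟩ -
          simp only
          by_cases hak : b a.1 ≤ top k
          · rw [if_pos hak]
            have := count_grid hM hMm L hL h g hh hML val hval hmono hAP a k
            calc _ ≤ (N * ((M (b a.1) : ℝ)⁻¹ * ∏ x, (L (b (k x).1))⁻¹)) * w k :=
                  mul_le_mul_of_nonneg_right this (hw k)
              _ = _ := by ring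
          · have hz : (univ.filter fun f : Ω => Grid val h g f a k) = ∅ := by
              rw [filter_eq_empty_iff]
              intro f _ hf
              apply hak
              have h1 := hf.2.2.1 (Sum.inl ⟨0, hh⟩)
              exact (hmono _ _ h1.le).trans (hble k _)
            rw [hz, if_neg hak]
            simp
      _ = ∑ k : Fin h ⊕ Fin g → Pt b M,
          (∑ a : Pt b M, (if b a.1 ≤ top k then (M (b a.1) : ℝ)⁻¹ else 0)) *
            (N * ((∏ x, (L (b (k x).1))⁻¹) * w k)) := by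
          rw [Fintype.sum_prod_type_right]
          apply sum_congr rfl
          intro k _
          rw [sum_mul]
      _ ≤ ∑ k : Fin h ⊕ Fin g → Pt b M,
          N * (2 * ∏ x, (((b (k x).1 : ℝ) + 1) * (L (b (k x).1))⁻¹)) := by
          apply sum_le_sum
          intro k _
          have hLp : 0 ≤ ∏ x, (L (b (k x).1))⁻¹ := prod_nonneg fun x _ => (inv_pos.2 (hL _)).le
          have h1 : (∑ a : Pt b M, (if b a.1 ≤ top k then (M (b a.1) : ℝ)⁻¹ else 0)) * w k
              ≤ 2 * ∏ x, ((b (k x).1 : ℝ) + 1) := by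
            calc _ ≤ (((top k : ℝ) + 1) * μ (top k)) * (2 / (μ (top k) : ℝ)) :=
                  mul_le_mul_of_nonneg_right (htop _) (hw k)
              _ ≤ 2 * ((top k : ℝ) + 1) := by
                  rcases Nat.eq_zero_or_pos (μ (top k)) with h0 | h0
                  · rw [h0]; simp; positivity
                  · have : (0 : ℝ) < μ (top k) := by exact_mod_cast h0
                    field_simp
                    exact le_refl _
              _ ≤ _ := by linarith [hbtop k]
          calc _ = N * ((∏ x, (L (b (k x).1))⁻¹) *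
                ((∑ a : Pt b M, (if b a.1 ≤ top k then (M (b a.1) : ℝ)⁻¹ else 0)) * w k)) := by ring
            _ ≤ N * ((∏ x, (L (b (k x).1))⁻¹) * (2 * ∏ x, ((b (k x).1 : ℝ) + 1))) := by gcongr
            _ = _ := by rw [prod_mul_distrib]; ring
      _ = N * (2 * (∑ p : Pt b M, ((b p.1 : ℝ) + 1) * (L (b p.1))⁻¹) ^ (h + g)) := by
          rw [← mul_sum, ← mul_sum]
          congr 2
          have := Finset.prod_univ_sum (fun _ : Fin h ⊕ Fin g => (univ : Finset (Pt b M)))
            (fun _ (p : Pt b M) => ((b p.1 : ℝ) + 1) * (L (b p.1))⁻¹)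
          rw [prod_const, card_univ, Fintype.card_sum, Fintype.card_fin, Fintype.card_fin] at this
          rw [this]
          apply sum_congr
          · ext k; simp
          · intro k _; rfl
      _ ≤ N * (2 * (1 / 2) ^ (h + g)) := by
          have h0 : 0 ≤ ∑ p : Pt b M, ((b p.1 : ℝ) + 1) * (L (b p.1))⁻¹ :=
            sum_nonneg fun p _ => mul_nonneg (by positivity) (inv_pos.2 (hL _)).le
          gcongr
      _ ≤ N * (2 * (1 / 2) ^ 2) := by
          have : ((1 : ℝ) / 2) ^ (h + g) ≤ (1 / 2) ^ 2 :=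
            pow_le_pow_of_le_one (by norm_num) (by norm_num) (by omega)
          gcongr
      _ = N * (1 / 2) := by norm_num
  obtain ⟨f, -, hf⟩ : ∃ f ∈ (univ : Finset Ω), Φ f ≤ 1 / 2 := by
    apply exists_le_of_sum_le univ_nonempty
    rw [sum_const, card_univ, nsmul_eq_mul]
    exact hsumΦ
  refine ⟨f, fun J hJ 𝒢 h𝒢 => ?_⟩
  have hJ' : (0 : ℝ) < μ J := by exact_mod_cast hJ
  have h1 : (𝒢.card : ℝ) * (2 / (μ J : ℝ)) ≤ Φ f := by
    calc (𝒢.card : ℝ) * (2 / (μ J : ℝ)) = ∑ ak ∈ 𝒢, (2 / (μ J : ℝ)) := by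
          rw [sum_const, nsmul_eq_mul]
      _ = ∑ ak ∈ 𝒢, (if Grid val h g f ak.1 ak.2 then w ak.2 else 0) := by
          apply sum_congr rfl
          intro ak hak
          rw [if_pos (h𝒢 ak hak).1]
          show _ = 2 / (μ (top ak.2) : ℝ)
          rw [(h𝒢 ak hak).2]
      _ ≤ _ := sum_le_sum_of_subset_of_nonneg (subset_univ _) (fun ak _ _ => by
          split_ifs
          · exact hw _
          · exact le_refl _)
  have h2 : (𝒢.card : ℝ) * (2 / (μ J : ℝ)) ≤ 1 / 2 := h1.trans hf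
  have h3 : (𝒢.card : ℝ) * 2 ≤ 1 / 2 * μ J := by
    rw [mul_div_assoc', div_le_iff₀ hJ'] at h2
    exact h2
  have h4 : (2 * 𝒢.card : ℝ) ≤ μ J := by linarith
  exact_mod_cast h4

end main

end Pool.Agent.Y360.CHG
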