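import Pool.Agent.Y360.CHGStage

set_option autoImplicit false

namespace Pool.Agent.Y360.CHG

open Finset

/-- the exponent of the size of the cells -/
noncomputable def bet (h g : ℕ) : ℝ := ((h : ℝ) + g) / ((h : ℝ) * g + (h + g))

/-- the size of the cells -/
noncomputable def Mf (h g b : ℕ) : ℕ := ⌈(Lf b) ^ (bet h g)⌉₊

/-- the number of cells available in the block -/
noncomputable def nuf (h g b : ℕ) : ℕ := rothNumberNat (4 ^ b / 2) / Mf h g b

/-- the number of cells of the block -/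
noncomputable def muf (h g b : ℕ) : ℕ := sInf (nuf h g '' Set.Ici b)

lemma Lf_one_le (b : ℕ) : 1 ≤ Lf b := by
  unfold Lf
  have h1 : (1 : ℝ) ≤ (b : ℝ) + 1 := by
    have : (0 : ℝ) ≤ b := by positivity
    linarith
  have h2 : (1 : ℝ) ≤ ((b : ℝ) + 1) ^ 3 := one_le_pow₀ h1
  have h3 : (1 : ℝ) ≤ 4 ^ b := one_le_pow₀ (by norm_num)
  nlinarith

lemma Lf_mono : Monotone Lf := by
  intro a b hab
  unfold Lf
  have : (a : ℝ) ≤ b := by exact_mod_cast hab
  have h3 : (4 : ℝ) ^ a ≤ 4 ^ b := pow_le_pow_right₀ (by norm_num) hab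
  gcongr

lemma bet_pos {h g : ℕ} (hh : 0 < h) : 0 < bet h g := by
  unfold bet
  have : (0 : ℝ) < h := by exact_mod_cast hh
  positivity

lemma bet_le_one {h g : ℕ} (hh : 0 < h) : bet h g ≤ 1 := by
  unfold bet
  have h1 : (0 : ℝ) < h := by exact_mod_cast hh
  have h2 : (0 : ℝ) ≤ g := by positivity
  rw [div_le_one (by positivity)]
  have : (0 : ℝ) ≤ (h : ℝ) * g := by positivity
  linarith

lemma Mf_pos (h g b : ℕ) : 0 < Mf h g b := by
  unfold Mf
  rw [Nat.ceil_pos]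
  exact Real.rpow_pos_of_pos (Lf_pos b) _

lemma Mf_mono {h g : ℕ} (hh : 0 < h) : Monotone (Mf h g) := by
  intro a b hab
  unfold Mf
  exact Nat.ceil_mono (Real.rpow_le_rpow (Lf_pos a).le (Lf_mono hab) (bet_pos hh).le)

lemma Mf_L {h g : ℕ} (hh : 0 < h) (n : ℕ) :
    Lf n ^ (h + g) ≤ (Mf h g n : ℝ) ^ (h * g + (h + g)) := by
  have h0 : (0 : ℝ) < h := by exact_mod_cast hh
  have h1 : (Lf n) ^ (bet h g) ≤ (Mf h g n : ℝ) := Nat.le_ceil _
  calc Lf n ^ (h + g) = (Lf n ^ (bet h g)) ^ (h * g + (h + g)) := by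
        rw [← Real.rpow_natCast, ← Real.rpow_natCast, ← Real.rpow_mul (Lf_pos n).le]
        congr 1
        unfold bet
        push_cast
        have : (h : ℝ) * g + (h + g) ≠ 0 := by positivity
        field_simp
    _ ≤ _ := pow_le_pow_left₀ (Real.rpow_nonneg (Lf_pos n).le _) h1 _

lemma muf_le (h g b : ℕ) : muf h g b ≤ nuf h g b :=
  Nat.sInf_le ⟨b, Set.mem_Ici.2 le_rfl, rfl⟩

lemma muf_mem (h g b : ℕ) : ∃ c, b ≤ c ∧ nuf h g c = muf h g b := by
  have : (nuf h g '' Set.Ici b).Nonempty := ⟨_, b, Set.mem_Ici.2 le_rfl, rfl⟩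
  obtain ⟨c, hc, hc2⟩ := Nat.sInf_mem this
  exact ⟨c, hc, hc2⟩

lemma muf_mono (h g : ℕ) : Monotone (muf h g) := by
  intro a b hab
  obtain ⟨c, hc, hc2⟩ := muf_mem h g b
  rw [← hc2]
  exact Nat.sInf_le ⟨c, Set.mem_Ici.2 (hab.trans hc), rfl⟩

lemma muf_mul_le (h g b : ℕ) : muf h g b * Mf h g b ≤ rothNumberNat (4 ^ b / 2) :=
  (Nat.mul_le_mul_right _ (muf_le h g b)).trans (Nat.div_mul_le_self _ _)

lemma muf_sz (h g b : ℕ) : 2 * (muf h g b * Mf h g b) ≤ 4 ^ b := by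
  have h1 := muf_mul_le h g b
  have h2 := rothNumberNat_le (4 ^ b / 2)
  omega

/-- the points of the blocks -/
lemma exists_e (h g : ℕ) : ∃ e : (b : ℕ) → Fin (muf h g b) → Fin (Mf h g b) → ℤ,
    (∀ b t r, (4 : ℤ) ^ b ≤ e b t r) ∧ (∀ b t r, 2 * e b t r < 3 * 4 ^ b) ∧
    (∀ b t r t' r', e b t r = e b t' r' → t = t' ∧ r = r') ∧
    (∀ b t r t' r' t'' r'', e b t r + e b t' r' = 2 * e b t'' r'' → e b t r = e b t' r') := by
  have hB : ∀ b : ℕ, ∃ B : Finset ℕ, B ⊆ range (4 ^ b / 2) ∧ B.card = rothNumberNat (4 ^ b / 2) ∧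
      ThreeAPFree (B : Set ℕ) := fun b => rothNumberNat_spec _
  choose B hB1 hB2 hB3 using hB
  have hle : ∀ b, muf h g b * Mf h g b ≤ (B b).card := fun b => by
    rw [hB2]; exact muf_mul_le h g b
  let u : (b : ℕ) → Fin (muf h g b) → Fin (Mf h g b) → ℕ := fun b t r =>
    (B b).orderEmbOfFin rfl (Fin.castLE (hle b) (finProdFinEquiv (t, r)))
  have hu : ∀ b t r, u b t r ∈ B b := fun b t r => orderEmbOfFin_mem _ _ _
  have hu2 : ∀ b t r, 2 * u b t r < 4 ^ b := by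
    intro b t r
    have := mem_range.1 (hB1 b (hu b t r))
    omega
  refine ⟨fun b t r => 4 ^ b + (u b t r : ℤ), ?_, ?_, ?_, ?_⟩
  · intro b t r
    have : (0 : ℤ) ≤ (u b t r : ℤ) := by positivity
    simp only
    linarith
  · intro b t r
    have : 2 * (u b t r : ℤ) < 4 ^ b := by exact_mod_cast hu2 b t r
    simp only
    linarith
  · intro b t r t' r' heq
    simp only at heq
    have h1 : u b t r = u b t' r' := by
      have : (u b t r : ℤ) = (u b t' r' : ℤ) := by linarith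
      exact_mod_cast this
    have h2 := ((B b).orderEmbOfFin rfl).injective h1
    have h3 := Fin.castLE_injective (hle b) h2
    have h4 := finProdFinEquiv.injective h3
    exact ⟨congrArg Prod.fst h4, congrArg Prod.snd h4⟩
  · intro b t r t' r' t'' r'' heq
    simp only at heq
    have h1 : u b t r + u b t' r' = u b t'' r'' + u b t'' r'' := by
      have : (u b t r : ℤ) + (u b t' r' : ℤ) = (u b t'' r'' : ℤ) + (u b t'' r'' : ℤ) := by linarith
      exact_mod_cast this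
    have h2 : u b t r = u b t'' r'' := hB3 b (hu b t r) (hu b t'' r'') (hu b t' r') h1
    have h3 : u b t r = u b t' r' := by omega
    simp only
    rw [h3]

/-! ### asymptotics -/

/-- the elementary inequality behind the asymptotics -/
lemma asym_aux (ε : ℝ) (hε : 0 < ε) : ∃ b0 : ℕ, 1 ≤ b0 ∧ ∀ b : ℕ, b0 ≤ b →
    16 * ((b : ℝ) + 1) ^ 3 * Real.exp (4 * √(b * Real.log 4)) ≤ (4 : ℝ) ^ (ε * b) := by
  have hlog4 : 1 ≤ Real.log 4 := by
    rw [Real.le_log_iff_exp_le (by norm_num)]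
    have := Real.exp_one_lt_d9
    linarith
  have hlog4' : Real.log 4 ≤ 4 := by
    have := Real.log_le_sub_one_of_pos (show (0 : ℝ) < 4 by norm_num)
    linarith
  obtain ⟨b0, hb0⟩ := exists_nat_ge ((60 / ε) ^ 2 + 1)
  have hb0' : 1 ≤ b0 := by
    have : (1 : ℝ) ≤ b0 := le_trans (by nlinarith [sq_nonneg (60 / ε)]) hb0
    exact_mod_cast this
  refine ⟨b0, hb0', fun b hb => ?_⟩
  have hb1 : (1 : ℝ) ≤ b := by exact_mod_cast hb0'.trans hb
  have hbb : (60 / ε) ^ 2 + 1 ≤ (b : ℝ) := hb0.trans (by exact_mod_cast hb)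
  set s : ℝ := √((b : ℝ) + 1) with hs
  have hs2 : s ^ 2 = (b : ℝ) + 1 := Real.sq_sqrt (by linarith)
  have hs0 : 0 ≤ s := Real.sqrt_nonneg _
  have hs1 : 1 ≤ s := by
    rw [hs]; exact Real.one_le_sqrt.2 (by linarith)
  have hsε : 60 / ε ≤ s := by
    rw [hs]
    apply Real.le_sqrt_of_sq_le
    linarith
  -- sqrt
  have h1 : √(b * Real.log 4) ≤ 2 * s := by
    rw [show 2 * s = √((2 * s) ^ 2) by rw [Real.sqrt_sq (by linarith)]]
    apply Real.sqrt_le_sqrt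
    nlinarith
  -- log
  have h2 : ((b : ℝ) + 1) ^ 3 ≤ Real.exp (6 * s) := by
    have : (b : ℝ) + 1 ≤ Real.exp (2 * s) := by
      rw [← hs2]
      have h3 : s ≤ Real.exp s := by
        have := Real.add_one_le_exp s
        linarith
      calc s ^ 2 ≤ Real.exp s ^ 2 := pow_le_pow_left₀ hs0 h3 2
        _ = Real.exp (2 * s) := by rw [← Real.exp_nat_mul]; norm_num
    calc ((b : ℝ) + 1) ^ 3 ≤ Real.exp (2 * s) ^ 3 := pow_le_pow_left₀ (by linarith) this 3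
      _ = Real.exp (6 * s) := by
        rw [← Real.exp_nat_mul]; norm_num; ring
  have h16 : (16 : ℝ) ≤ Real.exp (4 * s) := by
    have h3 : (2 : ℝ) ≤ Real.exp s := by
      have := Real.add_one_le_exp s
      linarith
    calc (16 : ℝ) = 2 ^ 4 := by norm_num
      _ ≤ Real.exp s ^ 4 := pow_le_pow_left₀ (by norm_num) h3 4
      _ = Real.exp (4 * s) := by rw [← Real.exp_nat_mul]; norm_num
  have h5 : Real.exp (4 * √(b * Real.log 4)) ≤ Real.exp (8 * s) :=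
    Real.exp_le_exp.2 (by linarith)
  have h6 : (4 : ℝ) ^ (ε * b) = Real.exp (Real.log 4 * (ε * b)) := Real.rpow_def_of_pos (by norm_num) _
  rw [h6]
  calc 16 * ((b : ℝ) + 1) ^ 3 * Real.exp (4 * √(b * Real.log 4))
      ≤ Real.exp (4 * s) * Real.exp (6 * s) * Real.exp (8 * s) := by gcongr
    _ = Real.exp (18 * s) := by rw [← Real.exp_add, ← Real.exp_add]; ring_nf
    _ ≤ Real.exp (Real.log 4 * (ε * b)) := by
      apply Real.exp_le_exp.2
      have h7 : ε * b ≤ Real.log 4 * (ε * b) := by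
        have : 0 ≤ ε * b := by positivity
        nlinarith
      have h8 : 60 ≤ ε * s := by
        rw [div_le_iff₀ hε] at hsε
        linarith
      have h9 : s ^ 2 / 2 ≤ b := by rw [hs2]; linarith
      have h10 : 30 * s ≤ ε * b := by
        calc 30 * s = 60 * s / 2 := by ring
          _ ≤ (ε * s) * s / 2 := by gcongr
          _ = ε * (s ^ 2 / 2) := by ring
          _ ≤ ε * b := by gcongr
      linarith

/-- the size of the blocks -/
lemma nuf_lower {h g : ℕ} (hh : 0 < h) (ε : ℝ) (hε : 0 < ε) (hα : 0 ≤ 1 - bet h g - ε) :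
    ∃ b0 : ℕ, ∀ b : ℕ, b0 ≤ b → (4 : ℝ) ^ ((1 - bet h g - ε) * b) ≤ nuf h g b := by
  obtain ⟨b0, hb0, hb⟩ := asym_aux ε hε
  refine ⟨b0, fun b hbb => ?_⟩
  have hb1 : 1 ≤ b := hb0.trans hbb
  have hineq := hb b hbb
  set β := bet h g with hβ
  have hβ1 : β ≤ 1 := bet_le_one hh
  have hβ0 : 0 < β := bet_pos hh
  -- N
  obtain ⟨c, rfl⟩ : ∃ c, b = c + 1 := ⟨b - 1, by omega⟩
  set N : ℕ := 4 ^ (c + 1) / 2 with hN
  have hN2 : (N : ℝ) = 4 ^ (c + 1) / 2 := by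
    have : 2 * N = 4 ^ (c + 1) := by
      rw [hN, pow_succ]; omega
    have h2 : (2 : ℝ) * N = 4 ^ (c + 1) := by exact_mod_cast this
    linarith
  have hlogN : Real.log N ≤ ((c + 1 : ℕ) : ℝ) * Real.log 4 := by
    rw [← Real.log_pow]
    apply Real.log_le_log
    · rw [hN2]; positivity
    · rw [hN2]
      have : (0 : ℝ) < 4 ^ (c + 1) := by positivity
      linarith
  have hroth : (4 : ℝ) ^ (c + 1) / 2 * Real.exp (-4 * √(((c + 1 : ℕ) : ℝ) * Real.log 4))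
      ≤ rothNumberNat N := by
    refine le_trans ?_ (Behrend.roth_lower_bound (N := N))
    rw [hN2]
    have h3 : √(Real.log ((4 : ℝ) ^ (c + 1) / 2)) ≤ √(((c + 1 : ℕ) : ℝ) * Real.log 4) := by
      apply Real.sqrt_le_sqrt
      rw [← hN2]; exact hlogN
    have h4 : Real.exp (-4 * √(((c + 1 : ℕ) : ℝ) * Real.log 4))
        ≤ Real.exp (-4 * √(Real.log ((4 : ℝ) ^ (c + 1) / 2))) := by
      apply Real.exp_le_exp.2; linarith
    gcongr
  -- the cell size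
  have hMle : (Mf h g (c + 1) : ℝ) ≤ 4 * (((c + 1 : ℕ) : ℝ) + 1) ^ 3 * (4 : ℝ) ^ (β * (c + 1 : ℕ)) := by
    have h1 : (Mf h g (c + 1) : ℝ) < (Lf (c + 1)) ^ β + 1 := by
      unfold Mf
      exact Nat.ceil_lt_add_one (Real.rpow_nonneg (Lf_pos _).le _)
    have h2 : 1 ≤ (Lf (c + 1)) ^ β := Real.one_le_rpow (Lf_one_le _) hβ0.le
    have h3 : (Lf (c + 1)) ^ β ≤ 2 * (((c + 1 : ℕ) : ℝ) + 1) ^ 3 * (4 : ℝ) ^ (β * (c + 1 : ℕ)) := by
      have h4 : (1 : ℝ) ≤ 2 * (((c + 1 : ℕ) : ℝ) + 1) ^ 3 := by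
        have : (1 : ℝ) ≤ (((c + 1 : ℕ) : ℝ) + 1) ^ 3 := one_le_pow₀ (by
          have : (0 : ℝ) ≤ ((c + 1 : ℕ) : ℝ) := by positivity
          linarith)
        linarith
      calc (Lf (c + 1)) ^ β = (2 * (((c + 1 : ℕ) : ℝ) + 1) ^ 3) ^ β * ((4 : ℝ) ^ (c + 1)) ^ β := by
            unfold Lf
            rw [Real.mul_rpow (by positivity) (by positivity)]
        _ ≤ (2 * (((c + 1 : ℕ) : ℝ) + 1) ^ 3) ^ (1 : ℝ) * ((4 : ℝ) ^ (c + 1)) ^ β := by
            gcongr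
        _ = 2 * (((c + 1 : ℕ) : ℝ) + 1) ^ 3 * (4 : ℝ) ^ (β * (c + 1 : ℕ)) := by
            rw [Real.rpow_one, ← Real.rpow_natCast 4 (c + 1), ← Real.rpow_mul (by norm_num),
              mul_comm β]
    linarith
  -- the quotient
  have hMpos : (0 : ℝ) < Mf h g (c + 1) := by exact_mod_cast Mf_pos h g (c + 1)
  set y : ℝ := (4 : ℝ) ^ ((1 - β - ε) * (c + 1 : ℕ)) with hy
  have hy1 : 1 ≤ y := Real.one_le_rpow (by norm_num) (by positivity)
  have hmain : 2 * y * (Mf h g (c + 1) : ℝ) ≤ rothNumberNat N := by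
    refine le_trans ?_ hroth
    have hexp : 0 < Real.exp (4 * √(((c + 1 : ℕ) : ℝ) * Real.log 4)) := Real.exp_pos _
    have h1 : Real.exp (-4 * √(((c + 1 : ℕ) : ℝ) * Real.log 4))
        = (Real.exp (4 * √(((c + 1 : ℕ) : ℝ) * Real.log 4)))⁻¹ := by
      rw [← Real.exp_neg]; ring_nf
    rw [h1, ← div_eq_mul_inv, le_div_iff₀ hexp]
    have h2 : (4 : ℝ) ^ (c + 1) = y * (4 : ℝ) ^ (β * (c + 1 : ℕ)) * (4 : ℝ) ^ (ε * (c + 1 : ℕ)) := by
      rw [hy, ← Real.rpow_add (by norm_num), ← Real.rpow_add (by norm_num), ← Real.rpow_natCast]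
      congr 1
      push_cast
      ring
    rw [h2]
    have h4 : 0 < (4 : ℝ) ^ (β * (c + 1 : ℕ)) := Real.rpow_pos_of_pos (by norm_num) _
    calc 2 * y * (Mf h g (c + 1) : ℝ) * Real.exp (4 * √(((c + 1 : ℕ) : ℝ) * Real.log 4))
        ≤ 2 * y * (4 * (((c + 1 : ℕ) : ℝ) + 1) ^ 3 * (4 : ℝ) ^ (β * (c + 1 : ℕ))) *
          Real.exp (4 * √(((c + 1 : ℕ) : ℝ) * Real.log 4)) := by gcongr
      _ = y * (4 : ℝ) ^ (β * (c + 1 : ℕ)) * (16 * (((c + 1 : ℕ) : ℝ) + 1) ^ 3 *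
          Real.exp (4 * √(((c + 1 : ℕ) : ℝ) * Real.log 4))) / 2 := by ring
      _ ≤ y * (4 : ℝ) ^ (β * (c + 1 : ℕ)) * ((4 : ℝ) ^ (ε * (c + 1 : ℕ))) / 2 := by gcongr
  have h5 : y + 1 ≤ (rothNumberNat N : ℝ) / Mf h g (c + 1) := by
    rw [le_div_iff₀ hMpos]
    nlinarith
  have h6 : (rothNumberNat N : ℝ) / Mf h g (c + 1) < (nuf h g (c + 1) : ℝ) + 1 := by
    unfold nuf
    rw [div_lt_iff₀ hMpos]
    have h7 := Nat.lt_div_mul_add (a := rothNumberNat N) (Mf_pos h g (c + 1))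
    have h8 : rothNumberNat N < (rothNumberNat N / Mf h g (c + 1) + 1) * Mf h g (c + 1) := by
      rw [add_mul, one_mul]; exact h7
    exact_mod_cast h8
  linarith

lemma muf_lower {h g : ℕ} (hh : 0 < h) (ε : ℝ) (hε : 0 < ε) (hα : 0 ≤ 1 - bet h g - ε) :
    ∃ b0 : ℕ, ∀ b : ℕ, b0 ≤ b → (4 : ℝ) ^ ((1 - bet h g - ε) * b) ≤ muf h g b := by
  obtain ⟨b0, hb⟩ := nuf_lower (g := g) hh ε hε hα
  refine ⟨b0, fun b hbb => ?_⟩
  obtain ⟨c, hc, hc2⟩ := muf_mem h g b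
  rw [← hc2]
  refine le_trans ?_ (hb c (hbb.trans hc))
  apply Real.rpow_le_rpow_of_exponent_le (by norm_num)
  have : (b : ℝ) ≤ c := by exact_mod_cast hc
  gcongr

end Pool.Agent.Y360.CHG
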