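import Pool.Agent.Y360.CHGFinite

set_option autoImplicit false

namespace Pool.Agent.Y360.CHG

open Finset

/-- the size functions -/
noncomputable def Lf (b : ℕ) : ℝ := 2 * ((b : ℝ) + 1) ^ 3 * 4 ^ b

lemma Lf_pos (b : ℕ) : 0 < Lf b := by unfold Lf; positivity

lemma sum_sq (n : ℕ) : ∑ b ∈ range (n + 1), (((b : ℝ) + 1) ^ 2)⁻¹ ≤ 2 - ((n : ℝ) + 1)⁻¹ := by
  induction n with
  | zero => norm_num
  | succ n ih =>
    rw [sum_range_succ]
    have h1 : (((n + 1 : ℕ) : ℝ) + 1) = (n : ℝ) + 2 := by push_cast; ring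
    rw [h1]
    have hn : (0 : ℝ) ≤ n := by positivity
    have h2 : (((n : ℝ) + 2) ^ 2)⁻¹ ≤ ((n : ℝ) + 1)⁻¹ - ((n : ℝ) + 2)⁻¹ := by
      have h3 : ((n : ℝ) + 1)⁻¹ - ((n : ℝ) + 2)⁻¹ = (((n : ℝ) + 1) * ((n : ℝ) + 2))⁻¹ := by
        field_simp
        ring
      rw [h3]
      apply inv_anti₀ (by positivity)
      nlinarith
    linarith

section

variable {μ M : ℕ → ℕ} (e : (b : ℕ) → Fin (μ b) → Fin (M b) → ℤ)

/-- the union of the blocks `≤ n` as a set of points -/
def valn (n : ℕ) : Pt (fun c : (Σ b : Fin (n + 1), Fin (μ b)) => (c.1 : ℕ)) M → ℤ :=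
  fun p => e p.1.1 p.1.2 p.2

variable (he1 : ∀ b t r, (4 : ℤ) ^ b ≤ e b t r) (he2 : ∀ b t r, 2 * e b t r < 3 * 4 ^ b)

include he1 he2 in
lemma blk_mono {b b' : ℕ} {t : Fin (μ b)} {r : Fin (M b)} {t' : Fin (μ b')} {r' : Fin (M b')}
    (h : e b t r ≤ e b' t' r') : b ≤ b' := by
  by_contra hlt
  push Not at hlt
  have h1 := he1 b t r
  have h2 := he2 b' t' r'
  have h3 : (4 : ℤ) ^ (b' + 1) ≤ 4 ^ b := pow_le_pow_right₀ (by norm_num) hlt
  rw [pow_succ] at h3
  have h4 : (0 : ℤ) < 4 ^ b' := by positivity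
  linarith

variable (he3 : ∀ b t r t' r', e b t r = e b t' r' → t = t' ∧ r = r')
  (he4 : ∀ b t r t' r' t'' r'', e b t r + e b t' r' = 2 * e b t'' r'' → e b t r = e b t' r')

include he1 he2 he3 in
lemma valn_inj (n : ℕ) : Function.Injective (valn e n) := by
  rintro ⟨⟨b, t⟩, r⟩ ⟨⟨b', t'⟩, r'⟩ h
  simp only [valn] at h
  have h1 : (b : ℕ) = b' := le_antisymm (blk_mono e he1 he2 h.le) (blk_mono e he1 he2 h.ge)
  have h2 : b = b' := Fin.ext h1
  subst h2
  obtain ⟨h3, h4⟩ := he3 _ _ _ _ _ h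
  subst h3
  subst h4
  rfl

include he1 he2 he3 he4 in
lemma valn_ap (n : ℕ) (p q s : Pt (fun c : (Σ b : Fin (n + 1), Fin (μ b)) => (c.1 : ℕ)) M)
    (h : valn e n p + valn e n q = 2 * valn e n s) : p = q := by
  -- wlog p ≤ q
  wlog hpq : valn e n p ≤ valn e n q generalizing p q
  · exact (this q p (by rw [add_comm]; exact h) (le_of_not_ge hpq)).symm
  apply valn_inj e he1 he2 he3 n
  obtain ⟨⟨b, t⟩, r⟩ := p
  obtain ⟨⟨b', t'⟩, r'⟩ := q
  obtain ⟨⟨b'', t''⟩, r''⟩ := s
  simp only [valn] at *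
  -- s ≤ q, p ≤ s
  have h1 : (b'' : ℕ) ≤ b' := blk_mono e he1 he2 (t := t'') (r := r'') (t' := t') (r' := r')
    (by linarith)
  have h2 : (b : ℕ) ≤ b'' := blk_mono e he1 he2 (t := t) (r := r) (t' := t'') (r' := r'')
    (by linarith)
  have p1 := he1 b t r
  have p2 := he2 b t r
  have q1 := he1 b' t' r'
  have q2 := he2 b' t' r'
  have s1 := he1 b'' t'' r''
  have s2 := he2 b'' t'' r''
  have p0 : (0 : ℤ) < 4 ^ (b : ℕ) := by positivity
  have h3 : (b'' : ℕ) = b' := by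
    by_contra hne
    have hlt : (b'' : ℕ) + 1 ≤ b' := by omega
    have h4 : (4 : ℤ) ^ ((b'' : ℕ) + 1) ≤ 4 ^ (b' : ℕ) := pow_le_pow_right₀ (by norm_num) hlt
    rw [pow_succ] at h4
    linarith
  have h5 : (b : ℕ) = b'' := by
    by_contra hne
    have hlt : (b : ℕ) + 1 ≤ b'' := by omega
    have h4 : (4 : ℤ) ^ ((b : ℕ) + 1) ≤ 4 ^ (b'' : ℕ) := pow_le_pow_right₀ (by norm_num) hlt
    rw [pow_succ] at h4
    have h6 : (4 : ℤ) ^ (b' : ℕ) = 4 ^ (b'' : ℕ) := by rw [h3]
    linarith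
  have e1 : b'' = b' := Fin.ext h3
  have e2 : b = b'' := Fin.ext h5
  subst e1
  subst e2
  exact he4 _ _ _ _ _ _ _ h

include he1 he2 he3 he4 in
/-- the finite stage -/
theorem stage (hM : ∀ n, 0 < M n) (hMm : Monotone M) (hμ : Monotone μ) (h g : ℕ) (hh : 0 < h)
    (hg : 0 < g)
    (hML : ∀ n, Lf n ^ (h + g) ≤ (M n : ℝ) ^ (h * g + (h + g)))
    (hsz : ∀ b, 2 * (μ b * M b) ≤ 4 ^ b) (n : ℕ) :
    ∃ A : Finset ℤ, (∀ v ∈ A, 1 ≤ v) ∧
      (∀ X : Finset ℤ, X.card = h + 1 → ∀ k : Fin (g + 1) → ℤ, Function.Injective k →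
        ¬ ∀ i, ∀ x ∈ X, x + k i ∈ A) ∧
      ∀ J ≤ n, μ J ≤ 2 * (A.filter fun v => 4 ^ J ≤ v ∧ v < 2 * 4 ^ J).card := by
  classical
  set C := (Σ b : Fin (n + 1), Fin (μ b)) with hC
  let bb : C → ℕ := fun c => (c.1 : ℕ)
  let val : Pt bb M → ℤ := valn e n
  have hval : Function.Injective val := valn_inj e he1 he2 he3 n
  have hmono : ∀ p q, val p ≤ val q → bb p.1 ≤ bb q.1 := fun p q hpq => blk_mono e he1 he2 hpq
  have hAP : ∀ p q s, val p + val q = 2 * val s → p = q := valn_ap e he1 he2 he3 he4 n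
  have hcell : ∀ T, ((univ.filter fun c => bb c ≤ T).card) ≤ (T + 1) * μ T := by
    intro T
    set F : Finset (Fin (n + 1)) := (univ : Finset (Fin (n + 1))).filter (fun b => (b : ℕ) ≤ T)
      with hF
    have h1 : (univ.filter fun c : C => bb c ≤ T)
        = Finset.sigma F (fun b : Fin (n + 1) => (univ : Finset (Fin (μ b)))) := by
      ext c
      rw [mem_filter, mem_sigma, hF, mem_filter]
      simp [bb]
    rw [h1, card_sigma]
    calc ∑ b ∈ F, (univ : Finset (Fin (μ b))).card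
        ≤ ∑ b ∈ F, μ T := by
          apply sum_le_sum
          intro b hb
          rw [card_univ, Fintype.card_fin]
          exact hμ (mem_filter.1 hb).2
      _ = F.card * μ T := by
          rw [sum_const, smul_eq_mul]
      _ ≤ (T + 1) * μ T := by
          apply Nat.mul_le_mul_right
          have h2 : (F.image (fun b : Fin (n + 1) => (b : ℕ))) ⊆ range (T + 1) := by
            intro x hx
            rw [mem_image] at hx
            obtain ⟨b, hb, rfl⟩ := hx
            rw [mem_range]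
            have := (mem_filter.1 hb).2
            omega
          have h3 := card_le_card h2
          rw [card_image_of_injective _ Fin.val_injective, card_range] at h3
          exact h3
  have hsum : ∑ p : Pt bb M, ((bb p.1 : ℝ) + 1) * (Lf (bb p.1))⁻¹ ≤ 1 / 2 := by
    rw [Fintype.sum_sigma]
    have e1 : ∀ c : C, ∑ y : Fin (M (bb c)), ((bb c : ℝ) + 1) * (Lf (bb c))⁻¹
        = (M (bb c) : ℝ) * (((bb c : ℝ) + 1) * (Lf (bb c))⁻¹) := by
      intro c
      rw [sum_const, card_univ, Fintype.card_fin, nsmul_eq_mul]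
    calc _ = ∑ c : C, (M (bb c) : ℝ) * (((bb c : ℝ) + 1) * (Lf (bb c))⁻¹) :=
          sum_congr rfl fun c _ => e1 c
      _ = ∑ b : Fin (n + 1), (μ b : ℝ) * ((M b : ℝ) * (((b : ℝ) + 1) * (Lf b)⁻¹)) := by
          rw [Fintype.sum_sigma]
          apply sum_congr rfl
          intro b _
          show ∑ y : Fin (μ b), ((M b : ℝ) * ((((b : ℕ) : ℝ) + 1) * (Lf b)⁻¹)) = _
          rw [sum_const, card_univ, Fintype.card_fin, nsmul_eq_mul]
      _ ≤ ∑ b : Fin (n + 1), (1 / 4 : ℝ) * ((((b : ℕ) : ℝ) + 1) ^ 2)⁻¹ := by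
          apply sum_le_sum
          intro b _
          have h1 : (2 : ℝ) * ((μ b : ℝ) * M b) ≤ 4 ^ (b : ℕ) := by exact_mod_cast hsz b
          have hb : (0 : ℝ) ≤ ((b : ℕ) : ℝ) := by positivity
          unfold Lf
          have h4 : (0 : ℝ) < 4 ^ (b : ℕ) := by positivity
          calc (μ b : ℝ) * ((M b : ℝ) * ((((b : ℕ) : ℝ) + 1) * (2 * (((b : ℕ) : ℝ) + 1) ^ 3 * 4 ^ (b : ℕ))⁻¹))
              = (2 * ((μ b : ℝ) * M b)) * ((1 / 4) * ((((b : ℕ) : ℝ) + 1) ^ 2)⁻¹ * (4 ^ (b : ℕ))⁻¹) := by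
                field_simp
                ring
            _ ≤ 4 ^ (b : ℕ) * ((1 / 4) * ((((b : ℕ) : ℝ) + 1) ^ 2)⁻¹ * (4 ^ (b : ℕ))⁻¹) := by
                gcongr
            _ = _ := by field_simp
      _ = (1 / 4 : ℝ) * ∑ b ∈ range (n + 1), (((b : ℝ) + 1) ^ 2)⁻¹ := by
          rw [← mul_sum, ← Fin.sum_univ_eq_sum_range (fun b => (((b : ℝ) + 1) ^ 2)⁻¹)]
      _ ≤ (1 / 4 : ℝ) * 2 := by
          have := sum_sq n
          have h0 : (0 : ℝ) ≤ ((n : ℝ) + 1)⁻¹ := by positivity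
          linarith
      _ = 1 / 2 := by norm_num
  obtain ⟨f, hf⟩ := exists_choice hM hMm Lf Lf_pos μ h g hh hg hML val hval hmono hAP hcell hsum
  -- the chosen set
  set P : Finset (Pt bb M) := univ.filter (fun p => f p.1 = p.2) with hP
  set 𝒢 : Finset (Pt bb M × (Fin h ⊕ Fin g → Pt bb M)) :=
    univ.filter (fun ak => Grid val h g f ak.1 ak.2) with h𝒢
  have hx : ∀ k : Fin h ⊕ Fin g → Pt bb M, ∃ x, top k = bb (k x).1 := by
    intro k
    obtain ⟨x, -, hx⟩ := exists_mem_eq_sup (univ : Finset (Fin h ⊕ Fin g))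
      ⟨Sum.inl ⟨0, hh⟩, mem_univ _⟩ (fun x => bb (k x).1)
    exact ⟨x, hx⟩
  choose xs hxs using hx
  set D : Finset (Pt bb M) := 𝒢.image (fun ak => ak.2 (xs ak.2)) with hD
  refine ⟨(P \ D).image val, ?_, ?_, ?_⟩
  · intro v hv
    obtain ⟨p, -, rfl⟩ := mem_image.1 hv
    have h1 := he1 p.1.1 p.1.2 p.2
    have h2 : (1 : ℤ) ≤ 4 ^ ((p.1.1 : ℕ)) := one_le_pow₀ (by norm_num)
    exact h2.trans h1
  · intro X hX k hk hall
    have hXne : X.Nonempty := by rw [← card_pos]; omega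
    set x0 := X.min' hXne with hx0
    have hx0X : x0 ∈ X := X.min'_mem hXne
    obtain ⟨i0, -, hi0⟩ := exists_min_image (univ : Finset (Fin (g + 1))) k ⟨0, mem_univ _⟩
    have hcardE : (X.erase x0).card = h := by rw [card_erase_of_mem hx0X, hX]; rfl
    let ρ : Fin h ≃ (X.erase x0) := (Finset.equivFinOfCardEq hcardE).symm
    have hρ : ∀ i, (ρ i : ℤ) ∈ X ∧ x0 < ρ i := by
      intro i
      have := (ρ i).2
      rw [mem_erase] at this
      exact ⟨this.2, lt_of_le_of_ne (X.min'_le _ this.2) (Ne.symm this.1)⟩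
    obtain ⟨pt0, -⟩ : ∃ p, p ∈ P \ D ∧ val p = x0 + k i0 := by
      obtain ⟨p, hp, hv⟩ := mem_image.1 (hall i0 x0 hx0X); exact ⟨p, hp, hv⟩
    have hpt : ∀ v, ∃ p, v ∈ (P \ D).image val → p ∈ P \ D ∧ val p = v := by
      intro v
      by_cases hv : v ∈ (P \ D).image val
      · obtain ⟨p, hp, hv⟩ := mem_image.1 hv
        exact ⟨p, fun _ => ⟨hp, hv⟩⟩
      · exact ⟨pt0, fun h => absurd h hv⟩
    choose pt hpt0 using hpt
    have hpt1 : ∀ v, v ∈ (P \ D).image val → pt v ∈ P \ D := fun v hv => (hpt0 v hv).1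
    have hpt2 : ∀ v, v ∈ (P \ D).image val → val (pt v) = v := fun v hv => (hpt0 v hv).2
    set a := pt (x0 + k i0) with ha
    let K : Fin h ⊕ Fin g → Pt bb M := fun x => match x with
      | Sum.inl i => pt (ρ i + k i0)
      | Sum.inr j => pt (x0 + k (i0.succAbove j))
    have ham := hall i0 x0 hx0X
    have hK1 : ∀ i, val (K (Sum.inl i)) = ρ i + k i0 := fun i => hpt2 _ (hall i0 _ (hρ i).1)
    have hK2 : ∀ j, val (K (Sum.inr j)) = x0 + k (i0.succAbove j) := fun j =>
      hpt2 _ (hall _ _ hx0X)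
    have hKm : ∀ x, K x ∈ P \ D := by
      intro x
      rcases x with i | j
      · exact hpt1 _ (hall i0 _ (hρ i).1)
      · exact hpt1 _ (hall _ _ hx0X)
    have hva : val a = x0 + k i0 := hpt2 _ ham
    have hsucc : ∀ j, k i0 < k (i0.succAbove j) := by
      intro j
      refine lt_of_le_of_ne (hi0 _ (mem_univ _)) ?_
      intro hc
      exact (Fin.succAbove_ne i0 j) (hk hc).symm
    have hgrid : Grid val h g f a K := by
      refine ⟨(mem_filter.1 (mem_sdiff.1 (hpt1 _ ham)).1).2,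
        fun x => (mem_filter.1 (mem_sdiff.1 (hKm x)).1).2, ?_, ?_, ?_, ?_⟩
      · intro x
        rcases x with i | j
        · rw [hva, hK1]; linarith [(hρ i).2]
        · rw [hva, hK2]; linarith [hsucc j]
      · intro i i' hii
        have h1 : val (K (Sum.inl i)) = val (K (Sum.inl i')) := congrArg val hii
        rw [hK1, hK1] at h1
        apply ρ.injective
        apply Subtype.ext
        linarith
      · intro i i' hii
        have h1 : val (K (Sum.inr i)) = val (K (Sum.inr i')) := congrArg val hii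
        rw [hK2, hK2] at h1
        exact Fin.succAbove_right_injective (hk (by linarith))
      · intro i j
        have hm := hall (i0.succAbove j) _ (hρ i).1
        refine ⟨pt (ρ i + k (i0.succAbove j)),
          (mem_filter.1 (mem_sdiff.1 (hpt1 _ hm)).1).2, ?_⟩
        rw [hpt2 _ hm, hK1, hK2, hva]
        ring
    have hin : K (xs K) ∈ D := by
      rw [hD, mem_image]
      exact ⟨(a, K), mem_filter.2 ⟨mem_univ _, hgrid⟩, rfl⟩
    exact (mem_sdiff.1 (hKm (xs K))).2 hin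
  · intro J hJ
    -- the elements of the block
    set PJ : Finset (Pt bb M) := P.filter (fun p => bb p.1 = J) with hPJ
    have hcardPJ : μ J ≤ PJ.card := by
      have hJn : J < n + 1 := by omega
      let F : Fin (μ J) → Pt bb M := fun t => ⟨⟨⟨J, hJn⟩, t⟩, f ⟨⟨J, hJn⟩, t⟩⟩
      have hF : Function.Injective F := by
        intro t t' htt
        have h1 : (F t).1 = (F t').1 := by rw [htt]
        simp only [F] at h1
        have h2 := (Sigma.mk.inj_iff.1 h1).2
        exact eq_of_heq h2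
      have h1 : univ.image F ⊆ PJ := by
        intro p hp
        obtain ⟨t, -, rfl⟩ := mem_image.1 hp
        rw [hPJ, mem_filter, hP, mem_filter]
        exact ⟨⟨mem_univ _, rfl⟩, rfl⟩
      have h2 := card_le_card h1
      rw [card_image_of_injective _ hF, card_univ, Fintype.card_fin] at h2
      exact h2
    have hcardD : 2 * (D.filter (fun p => bb p.1 = J)).card ≤ μ J := by
      rcases Nat.eq_zero_or_pos (μ J) with h0 | h0
      · have : D.filter (fun p => bb p.1 = J) = ∅ := by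
          rw [filter_eq_empty_iff]
          intro p _ hp
          have h1 := p.1.2.2
          have h2 : (p.1.1 : ℕ) = J := hp
          have h3 : μ (p.1.1 : ℕ) = 0 := by rw [h2]; exact h0
          omega
        rw [this]; simp
      · have h1 : D.filter (fun p => bb p.1 = J) ⊆
            (𝒢.filter (fun ak => top ak.2 = J)).image (fun ak => ak.2 (xs ak.2)) := by
          intro p hp
          rw [mem_filter, hD, mem_image] at hp
          obtain ⟨⟨ak, hak, rfl⟩, hp2⟩ := hp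
          rw [mem_image]
          refine ⟨ak, mem_filter.2 ⟨hak, ?_⟩, rfl⟩
          rw [hxs]; exact hp2
        have h2 := (card_le_card h1).trans card_image_le
        have h3 := hf J h0 (𝒢.filter (fun ak => top ak.2 = J)) (by
          intro ak hak
          rw [mem_filter, h𝒢, mem_filter] at hak
          exact ⟨hak.1.2, hak.2⟩)
        omega
    have h1 : ((PJ \ D.filter (fun p => bb p.1 = J)).image val) ⊆
        (((P \ D).image val).filter fun v => 4 ^ J ≤ v ∧ v < 2 * 4 ^ J) := by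
      intro v hv
      obtain ⟨p, hp, rfl⟩ := mem_image.1 hv
      rw [mem_sdiff, hPJ, mem_filter] at hp
      obtain ⟨⟨hp1, hp2⟩, hp3⟩ := hp
      rw [mem_filter]
      refine ⟨mem_image_of_mem _ (mem_sdiff.2 ⟨hp1, fun hc => hp3 (mem_filter.2 ⟨hc, hp2⟩)⟩), ?_, ?_⟩
      · have := he1 p.1.1 p.1.2 p.2
        rw [← hp2]; exact this
      · have := he2 p.1.1 p.1.2 p.2
        rw [← hp2]
        show e p.1.1 p.1.2 p.2 < 2 * 4 ^ (p.1.1 : ℕ)
        have h4 : (0 : ℤ) < 4 ^ (p.1.1 : ℕ) := by positivity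
        linarith
    have h2 := card_le_card h1
    rw [card_image_of_injective _ hval] at h2
    have h3 : PJ.card - (D.filter (fun p => bb p.1 = J)).card
        ≤ (PJ \ D.filter (fun p => bb p.1 = J)).card := le_card_sdiff _ _
    omega

end

end Pool.Agent.Y360.CHG
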