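import Mathlib

/-!
# Heights of the coefficients of monic rational factors (job 282 for MP_821da1_nt)
-/

set_option autoImplicit false

namespace Pool.Agent.Y360.FactorHeight

open Polynomial

/-- an integer polynomial all of whose coefficients are at most `M` in absolute value, monic,
has all complex roots of norm at most `M + 1`. -/
theorem root_le {P : ℤ[X]} (hP : P.Monic) {M : ℕ} (hM : ∀ l, |P.coeff l| ≤ (M : ℤ)) {z : ℂ}
    (hz : (P.map (Int.castRingHom ℂ)).IsRoot z) : ‖z‖ ≤ (M : ℝ) + 1 := by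
  have hmon : (P.map (Int.castRingHom ℂ)).Monic := hP.map _
  have h1 : ‖z‖₊ < cauchyBound (P.map (Int.castRingHom ℂ)) :=
    hz.norm_lt_cauchyBound hmon.ne_zero
  have h2 : cauchyBound (P.map (Int.castRingHom ℂ)) ≤ (M : NNReal) + 1 := by
    unfold cauchyBound
    rw [hmon.leadingCoeff, nnnorm_one, div_one]
    gcongr
    apply Finset.sup_le
    intro i _
    rw [coeff_map, ← NNReal.coe_le_coe, coe_nnnorm]
    simp only [eq_intCast, NNReal.coe_natCast]
    rw [Complex.norm_intCast]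
    exact_mod_cast hM i
  have h3 : ‖z‖₊ ≤ (M : NNReal) + 1 := h1.le.trans h2
  exact_mod_cast h3

/-- coefficients of a monic integral divisor -/
theorem coeff_le {P H : ℤ[X]} (hP : P.Monic) (hH : H.Monic) (hd : H ∣ P) {M : ℕ}
    (hM : ∀ l, |P.coeff l| ≤ (M : ℤ)) (i : ℕ) :
    |H.coeff i| ≤ (((M + 1) ^ P.natDegree * 2 ^ P.natDegree : ℕ) : ℤ) := by
  have hdeg : H.natDegree ≤ P.natDegree := natDegree_le_of_dvd hd hP.ne_zero
  have h := coeff_le_of_roots_le (F := ℤ) (K := ℂ) (p := H) (f := Int.castRingHom ℂ)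
    (B := (M : ℝ) + 1) i hH (IsAlgClosed.splits _) (by
      intro z hz
      have hz1 : (H.map (Int.castRingHom ℂ)).IsRoot z := (mem_roots (hH.map _).ne_zero).1 hz
      apply root_le hP hM
      obtain ⟨Q, rfl⟩ := hd
      rw [Polynomial.map_mul, IsRoot.def, eval_mul, hz1.eq_zero, zero_mul])
  rw [coeff_map, eq_intCast, Complex.norm_intCast] at h
  have h2 : ((M : ℝ) + 1) ^ (H.natDegree - i) * (H.natDegree.choose i : ℝ) ≤
      (((M + 1) ^ P.natDegree * 2 ^ P.natDegree : ℕ) : ℝ) := by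
    push_cast
    have h3 : ((M : ℝ) + 1) ^ (H.natDegree - i) ≤ ((M : ℝ) + 1) ^ P.natDegree :=
      pow_le_pow_right₀ (by linarith [Nat.cast_nonneg (α := ℝ) M]) (by omega)
    have h4 : (H.natDegree.choose i : ℝ) ≤ 2 ^ P.natDegree := by
      have : H.natDegree.choose i ≤ 2 ^ P.natDegree :=
        (Nat.choose_le_two_pow _ _).trans (Nat.pow_le_pow_right (by norm_num) hdeg)
      exact_mod_cast this
    exact mul_le_mul h3 h4 (by positivity) (by positivity)
  have h5 := h.trans h2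
  exact_mod_cast h5

theorem factor_height (r : ℕ) : ∃ e : ℕ, ∀ B : ℕ, 2 ≤ B → ∀ g g1 g2 : ℚ[X], g.Monic →
    g.natDegree = r → g1.Monic → g2.Monic → g = g1 * g2 →
    (∀ l, ∃ (a : ℤ) (b : ℕ), 0 < b ∧ b ≤ B ∧ |a| ≤ (B : ℤ) ∧ g.coeff l = (a : ℚ) / (b : ℚ)) →
    ∀ l, ∃ (a : ℤ) (b : ℕ), 0 < b ∧ b ≤ B ^ e ∧ |a| ≤ (B : ℤ) ^ e ∧
      g1.coeff l = (a : ℚ) / (b : ℚ) := by
  refine ⟨(((r + 1) * r + 1) + 1) * r + r + (r + 1) * r, ?_⟩
  intro B hB g g1 g2 hg hr hg1 hg2 hgg hco l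
  have hB1 : 1 ≤ B := by omega
  choose a b hb0 hbB haB hab using hco
  set D : ℕ := ∏ l ∈ Finset.range (r + 1), b l with hD
  have hD0 : 0 < D := Finset.prod_pos fun l _ => hb0 l
  have hDB : D ≤ B ^ (r + 1) := by
    calc D ≤ ∏ _l ∈ Finset.range (r + 1), B := Finset.prod_le_prod' fun l _ => hbB l
      _ = B ^ (r + 1) := by simp
  have hDQ : (D : ℚ) ≠ 0 := by exact_mod_cast hD0.ne'
  -- the integral model
  have hint : ∀ i, ∃ c : ℤ, (g.scaleRoots (D : ℚ)).coeff i = (c : ℚ) ∧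
      |c| ≤ ((B ^ ((r + 1) * r + 1) : ℕ) : ℤ) := by
    intro i
    rw [coeff_scaleRoots, hr]
    rcases lt_trichotomy i r with hi | hi | hi
    · obtain ⟨q, hq⟩ : b i ∣ D := Finset.dvd_prod_of_mem _ (Finset.mem_range.2 (by omega))
      refine ⟨a i * q * (D : ℤ) ^ (r - i - 1), ?_, ?_⟩
      · rw [hab i]
        have h1 : r - i = (r - i - 1) + 1 := by omega
        rw [h1, pow_succ]
        have h2 : (D : ℚ) = (b i : ℚ) * (q : ℚ) := by exact_mod_cast hq
        have h3 : (b i : ℚ) ≠ 0 := by exact_mod_cast (hb0 i).ne'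
        push_cast
        have h4 : (D : ℚ) ^ (r - i - 1) * (D : ℚ) = (D : ℚ) ^ (r - i - 1) * ((b i : ℚ) * (q : ℚ)) := by
          rw [← h2]
        rw [h4]
        field_simp
      · rw [abs_mul, abs_mul, abs_pow, Nat.abs_cast, Nat.abs_cast]
        have h1 : (q : ℤ) ≤ D := by
          exact_mod_cast Nat.le_of_dvd hD0 ⟨b i, by rw [hq]; ring⟩
        calc |a i| * (q : ℤ) * (D : ℤ) ^ (r - i - 1) ≤ (B : ℤ) * (D : ℤ) * (D : ℤ) ^ (r - i - 1) := by
              have := haB i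
              gcongr
          _ = (B : ℤ) * (D : ℤ) ^ (r - i) := by
              have h1 : r - i = (r - i - 1) + 1 := by omega
              rw [h1, pow_succ, Nat.add_sub_cancel]; ring
          _ ≤ (B : ℤ) * ((B : ℤ) ^ (r + 1)) ^ (r - i) := by
              have : (D : ℤ) ≤ (B : ℤ) ^ (r + 1) := by exact_mod_cast hDB
              gcongr
          _ ≤ (B : ℤ) * ((B : ℤ) ^ (r + 1)) ^ r := by
              have h5 : (1 : ℤ) ≤ (B : ℤ) ^ (r + 1) := one_le_pow₀ (by exact_mod_cast hB1)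
              have := pow_le_pow_right₀ h5 (Nat.sub_le r i)
              gcongr
          _ = ((B ^ ((r + 1) * r + 1) : ℕ) : ℤ) := by
              push_cast
              rw [← pow_mul]; ring
    · subst hi
      refine ⟨1, ?_, ?_⟩
      · have : g.coeff i = 1 := by rw [← hr]; exact hg.coeff_natDegree
        rw [this]; simp
      · rw [abs_one]
        exact_mod_cast Nat.one_le_pow _ _ hB1
    · refine ⟨0, ?_, by simp⟩
      rw [coeff_eq_zero_of_natDegree_lt (by omega)]; simp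
  choose c hc hcB using hint
  -- the polynomial over `ℤ`
  have hlift : ∃ P : ℤ[X], P.map (algebraMap ℤ ℚ) = g.scaleRoots (D : ℚ) := by
    have : g.scaleRoots (D : ℚ) ∈ Polynomial.lifts (algebraMap ℤ ℚ) := by
      rw [lifts_iff_coeff_lifts]
      intro n
      exact ⟨c n, by rw [hc n]; simp⟩
    exact (mem_lifts _).1 this
  obtain ⟨P, hPmap⟩ := hlift
  have hinj : Function.Injective (algebraMap ℤ ℚ) := RingHom.injective_int _
  have hPmon : P.Monic := by
    apply monic_of_injective hinj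
    rw [hPmap]
    exact (monic_scaleRoots_iff _).2 hg
  have hPc : ∀ l, P.coeff l = c l := by
    intro l
    have h1 : (P.map (algebraMap ℤ ℚ)).coeff l = (c l : ℚ) := by rw [hPmap, hc]
    rw [coeff_map, eq_intCast] at h1
    exact_mod_cast h1
  have hPdeg : P.natDegree = r := by
    rw [← hr, ← natDegree_scaleRoots g (D : ℚ), ← hPmap, natDegree_map_eq_of_injective hinj]
  have hdvd : g1.scaleRoots (D : ℚ) ∣ P.map (algebraMap ℤ ℚ) := by
    rw [hPmap, hgg]
    exact scaleRoots_dvd _ _ (Dvd.intro _ rfl)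
  obtain ⟨H, hH⟩ := IsIntegrallyClosed.eq_map_mul_C_of_dvd ℚ hPmon hdvd
  have hmon1 : (g1.scaleRoots (D : ℚ)).Monic := (monic_scaleRoots_iff _).2 hg1
  rw [hmon1.leadingCoeff, C_1, mul_one] at hH
  have hHmon : H.Monic := by
    apply monic_of_injective hinj
    rw [hH]; exact hmon1
  have hHd : H ∣ P := by
    apply hPmon.dvd_of_fraction_map_dvd_fraction_map hHmon (K := ℚ)
    rw [hH]; exact hdvd
  have hbound := coeff_le hPmon hHmon hHd (M := B ^ ((r + 1) * r + 1))
    (fun l => by rw [hPc]; exact hcB l)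
  rw [hPdeg] at hbound
  have hdeg1 : g1.natDegree ≤ r := by
    rw [← hr, hgg, hg1.natDegree_mul hg2]; omega
  have hDle : ∀ k, k ≤ r → D ^ k ≤ B ^ ((r + 1) * r) := by
    intro k hk
    calc D ^ k ≤ (B ^ (r + 1)) ^ k := Nat.pow_le_pow_left hDB k
      _ = B ^ ((r + 1) * k) := by rw [pow_mul]
      _ ≤ B ^ ((r + 1) * r) := Nat.pow_le_pow_right hB1 (Nat.mul_le_mul_left _ hk)
  refine ⟨H.coeff l, D ^ (g1.natDegree - l), pow_pos hD0 _, ?_, ?_, ?_⟩
  · exact (hDle _ (by omega)).trans (Nat.pow_le_pow_right hB1 (by omega))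
  · refine (hbound l).trans ?_
    have h1 : (B ^ ((r + 1) * r + 1) + 1) ^ r * 2 ^ r ≤
        B ^ ((((r + 1) * r + 1) + 1) * r + r + (r + 1) * r) := by
      have h2 : B ^ ((r + 1) * r + 1) + 1 ≤ B ^ (((r + 1) * r + 1) + 1) := by
        have h3 : 1 ≤ B ^ ((r + 1) * r + 1) := Nat.one_le_pow _ _ hB1
        rw [pow_succ B ((r + 1) * r + 1)]
        nlinarith
      calc (B ^ ((r + 1) * r + 1) + 1) ^ r * 2 ^ r
          ≤ (B ^ (((r + 1) * r + 1) + 1)) ^ r * B ^ r :=
            Nat.mul_le_mul (Nat.pow_le_pow_left h2 r) (Nat.pow_le_pow_left hB r)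
        _ = B ^ ((((r + 1) * r + 1) + 1) * r + r) := by rw [← pow_mul, ← pow_add]
        _ ≤ _ := Nat.pow_le_pow_right hB1 (by omega)
    exact_mod_cast h1
  · have h1 : (H.map (algebraMap ℤ ℚ)).coeff l = (g1.scaleRoots (D : ℚ)).coeff l := by rw [hH]
    rw [coeff_map, coeff_scaleRoots] at h1
    have h2 : ((D ^ (g1.natDegree - l) : ℕ) : ℚ) ≠ 0 := by
      push_cast; exact pow_ne_zero _ hDQ
    rw [eq_div_iff h2]
    push_cast
    rw [← h1]; simp

end Pool.Agent.Y360.FactorHeight
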